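import Pool.Agent.H54.HL.K0
import Pool.Agent.H54.HL.W0

/-!
# HR: the principle at a measurable cardinal: definitions
-/

set_option autoImplicit false

namespace HLR

open Cardinal Ordinal HLP

/-- `U` is a normal ultrafilter on `κ`: it contains the final segments of `κ`, and every function which is regressive on a set in `U` is
constant on a set in `U` -/
structure NormalUF (κ : Cardinal.{0}) (U : Ultrafilter Ordinal.{0}) : Prop where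
  tail : ∀ γ < κ.ord, {μ : Ordinal.{0} | γ < μ ∧ μ < κ.ord} ∈ U
  reg : ∀ g : Ordinal.{0} → Ordinal.{0}, {μ | g μ < μ} ∈ U → ∃ γ, {μ | g μ = γ} ∈ U

/-- the principle with the set `C` of colours, for all sequences of well-orderings -/
def HLC (κ : Cardinal.{0}) (C : Type) : Prop :=
  ∀ lt : Ordinal.{0} → Sq → Sq → Prop, WO κ lt → HLw κ lt C

/-- `(κ, T, A)` is suitable and omits a colour on every `S(η₀, η₁)` -/
def Gd {C : Type} (κ : Cardinal.{0}) (lt : Ordinal.{0} → Sq → Sq → Prop) (c : Ordinal.{0} → Sq → Sq → C)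
    (T : Ordinal.{0} → Set Sq) (A : Set Ordinal.{0}) : Prop :=
  Suitable κ T A ∧ ∀ α η₀ η₁, η₀ ∈ T α → η₁ ∈ T α → η₀ ≠ η₁ → ∃ i : C, ∀ p ∈ S T A lt α η₀ η₁, c p.1 p.2.1 p.2.2 ≠ i

theorem complete {κ : Cardinal.{0}} {U : Ultrafilter Ordinal.{0}} (hU : NormalUF κ U) {δ : Ordinal.{0}} (hδ : δ < κ.ord)
    {F : Ordinal.{0} → Set Ordinal.{0}} (hF : ∀ i < δ, F i ∈ U) : {μ : Ordinal.{0} | ∀ i < δ, μ ∈ F i} ∈ U := by
  classical
  by_contra hcon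
  have h1 : {μ : Ordinal.{0} | ∀ i < δ, μ ∈ F i}ᶜ ∈ U := Ultrafilter.compl_mem_iff_notMem.2 hcon
  have h2 : ∀ μ : Ordinal.{0}, ∃ i : Ordinal.{0}, μ ∈ {μ : Ordinal.{0} | ∀ i < δ, μ ∈ F i}ᶜ → i < δ ∧ μ ∉ F i := by
    intro μ
    by_cases h : μ ∈ {μ : Ordinal.{0} | ∀ i < δ, μ ∈ F i}ᶜ
    · have h3 : ¬ ∀ i < δ, μ ∈ F i := h
      push Not at h3
      obtain ⟨i, hi, h4⟩ := h3
      exact ⟨i, fun _ => ⟨hi, h4⟩⟩
    · exact ⟨0, fun h3 => absurd h3 h⟩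
  choose g hg using h2
  obtain ⟨γ, hγ⟩ := hU.reg g (by
    filter_upwards [h1, hU.tail δ hδ] with μ h3 h4
    exact (hg μ h3).1.trans h4.1)
  have h5 : γ < δ := by
    obtain ⟨μ, h6, h7⟩ := U.nonempty_of_mem (Filter.inter_mem h1 hγ)
    have h8 : g μ = γ := h7
    rw [← h8]
    exact (hg μ h6).1
  obtain ⟨μ, ⟨h6, h7⟩, h8⟩ := U.nonempty_of_mem (Filter.inter_mem (Filter.inter_mem h1 hγ) (hF γ h5))
  have h9 : g μ = γ := h7
  exact (hg μ h6).2 (by rw [h9]; exact h8)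

theorem diag {κ : Cardinal.{0}} {U : Ultrafilter Ordinal.{0}} (hU : NormalUF κ U) (hκ : 0 < κ.ord)
    {F : Ordinal.{0} → Set Ordinal.{0}} (hF : ∀ i < κ.ord, F i ∈ U) : {μ : Ordinal.{0} | ∀ i < μ, μ ∈ F i} ∈ U := by
  classical
  by_contra hcon
  have h1 : {μ : Ordinal.{0} | ∀ i < μ, μ ∈ F i}ᶜ ∈ U := Ultrafilter.compl_mem_iff_notMem.2 hcon
  have h2 : ∀ μ : Ordinal.{0}, ∃ i : Ordinal.{0}, μ ∈ {μ : Ordinal.{0} | ∀ i < μ, μ ∈ F i}ᶜ → i < μ ∧ μ ∉ F i := by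
    intro μ
    by_cases h : μ ∈ {μ : Ordinal.{0} | ∀ i < μ, μ ∈ F i}ᶜ
    · have h3 : ¬ ∀ i < μ, μ ∈ F i := h
      push Not at h3
      obtain ⟨i, hi, h4⟩ := h3
      exact ⟨i, fun _ => ⟨hi, h4⟩⟩
    · exact ⟨0, fun h3 => absurd h3 h⟩
  choose g hg using h2
  obtain ⟨γ, hγ⟩ := hU.reg g (by
    filter_upwards [h1] with μ h3
    exact (hg μ h3).1)
  have h5 : γ < κ.ord := by
    obtain ⟨μ, ⟨h6, h7⟩, h8⟩ := U.nonempty_of_mem (Filter.inter_mem (Filter.inter_mem h1 hγ) (hU.tail 0 hκ))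
    have h9 : g μ = γ := h7
    rw [← h9]
    exact (hg μ h6).1.trans h8.2
  obtain ⟨μ, ⟨h6, h7⟩, h8⟩ := U.nonempty_of_mem (Filter.inter_mem (Filter.inter_mem h1 hγ) (hF γ h5))
  have h9 : g μ = γ := h7
  exact (hg μ h6).2 (by rw [h9]; exact h8)

end HLR
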