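import Pool.Agent.H54.HR.R0

/-!
ROW HR/R6. `card_of`: a subset of `ν.ord` which is unbounded in it has size `ν` (`ν` regular: `Cardinal.IsInaccessible.isRegular`, `Ordinal.cof`; or map `Set.Iio ν.ord` injectively into `A` by a strictly increasing recursion; or: if `#A < lift ν`, the supremum of `A` is `< ν.ord` by `Ordinal.iSup_lt_ord`-type lemmas; `≤` from `mk_Iio_ordinal`). `unb_of`: if all elements of `A` are `≤ γ < ν.ord` then `#A ≤ #(Set.Iio (Order.succ γ)) = lift (Order.succ γ).card < lift ν`.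
-/

set_option autoImplicit false

namespace HLR

open Cardinal Ordinal HLP

theorem card_of {ν : Cardinal.{0}} (hν : ν.IsInaccessible) {A : Set Ordinal.{0}} (hs : ∀ α ∈ A, α < ν.ord)
    (hu : ∀ γ < ν.ord, ∃ α ∈ A, γ < α) : #A = Cardinal.lift.{1} ν := by
  apply le_antisymm
  · have h1 : A ⊆ Set.Iio ν.ord := fun α hα => hs α hα
    have h2 := Cardinal.mk_le_mk_of_subset h1
    rw [Cardinal.mk_Iio_ordinal, Cardinal.card_ord] at h2
    exact h2
  · by_contra hlt
    rw [not_le] at hlt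
    have h1 : ⨆ i : A, (i : Ordinal.{0}) < ν.ord := by
      apply Ordinal.lift_iSup_lt_of_lt_cof
      · rw [← Ordinal.lift_cof, hν.isRegular.cof_ord]
        simpa using hlt
      · exact fun i => hs i i.2
    obtain ⟨α, hα, hlt2⟩ := hu _ h1
    have h2 : α ≤ ⨆ i : A, (i : Ordinal.{0}) := by
      have hb : BddAbove (Set.range fun i : A => (i : Ordinal.{0})) := by
        refine ⟨ν.ord, ?_⟩
        rintro _ ⟨i, rfl⟩
        exact (hs i i.2).le
      exact le_ciSup hb (⟨α, hα⟩ : A)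
    exact absurd hlt2 (not_lt.2 h2)

theorem unb_of {ν : Cardinal.{0}} (hν : ν.IsInaccessible) {A : Set Ordinal.{0}} (hs : ∀ α ∈ A, α < ν.ord)
    (hc : #A = Cardinal.lift.{1} ν) : ∀ γ < ν.ord, ∃ α ∈ A, γ < α := by
  intro γ hγ
  by_contra hcon
  push Not at hcon
  have h0 : Order.succ γ < ν.ord :=
    (Cardinal.isSuccLimit_ord hν.isRegular.aleph0_le).succ_lt hγ
  have h1 : A ⊆ Set.Iio (Order.succ γ) := fun α hα => Order.lt_succ_iff.2 (hcon α hα)
  have h2 := Cardinal.mk_le_mk_of_subset h1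
  rw [Cardinal.mk_Iio_ordinal, hc, Cardinal.lift_le] at h2
  exact absurd (Cardinal.lt_ord.1 h0) (not_lt.2 h2)

end HLR
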