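import Pool.Agent.H54.HR.R5
import Pool.Agent.H54.HR.R6

/-!
ROW HR/R7. Almost all `μ` satisfy `∀ γ < μ, ∃ α ∈ A, γ < α ∧ α < μ` (`diag` with `F γ = {μ | α_γ < μ}`, `α_γ ∈ A` from `unb_of` for `κ`, `tail`) and `μ < κ.ord`; for such `μ = ν.ord` all fields of `Suitable ν` are restrictions (`card` by `card_of`; `up`: `max α β < μ`; `split`: `Order.succ α < μ` since `ν.ord` is a limit; `nonempty`: `T 0` is nonempty by `down`).
-/

set_option autoImplicit false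

namespace HLR

open Cardinal Ordinal HLP

theorem restr {κ : Cardinal.{0}} (hκ : κ.IsInaccessible) {U : Ultrafilter Ordinal.{0}} (hU : NormalUF κ U)
    {T : Ordinal.{0} → Set Sq} {A : Set Ordinal.{0}} (h : Suitable κ T A) :
    {μ : Ordinal.{0} | ∀ ν : Cardinal.{0}, ν.ord = μ → ν.IsInaccessible →
      Suitable ν (fun α => {x | x ∈ T α ∧ α < μ}) {α | α ∈ A ∧ α < μ}} ∈ U := by
  classical
  have hκ0 : 0 < κ.ord := by
    rw [← Cardinal.ord_zero]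
    exact Cardinal.ord_lt_ord.2 (lt_of_le_of_lt zero_le hκ.aleph0_lt)
  have hu := unb_of hκ h.sub h.card
  have h1 : ∀ γ : Ordinal.{0}, ∃ a : Ordinal.{0}, γ < κ.ord → a ∈ A ∧ γ < a := by
    intro γ
    by_cases hγ : γ < κ.ord
    · obtain ⟨a, ha, hγa⟩ := hu γ hγ
      exact ⟨a, fun _ => ⟨ha, hγa⟩⟩
    · exact ⟨0, fun h' => absurd h' hγ⟩
  choose a ha using h1
  have h2 : {μ : Ordinal.{0} | ∀ γ < μ, μ ∈ {μ : Ordinal.{0} | a γ < μ}} ∈ U :=
    diag hU hκ0 fun γ hγ => Filter.mem_of_superset (hU.tail (a γ) (h.sub _ (ha γ hγ).1)) fun μ h' => h'.1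
  filter_upwards [h2, hU.tail 0 hκ0] with μ h3 h4
  intro ν hν hi
  subst hν
  have hunb : ∀ γ < ν.ord, ∃ α ∈ {α | α ∈ A ∧ α < ν.ord}, γ < α := fun γ hγ =>
    ⟨a γ, ⟨(ha γ (hγ.trans h4.2)).1, h3 γ hγ⟩, (ha γ (hγ.trans h4.2)).2⟩
  obtain ⟨α₀, x₀, hx₀⟩ := h.nonempty
  have hlim : Order.IsSuccLimit ν.ord := isSuccLimit_ord hi.aleph0_lt.le
  exact {
    sub := fun α hα => hα.2
    card := card_of hi (fun α hα => hα.2) hunb
    seq := fun α η hη => ⟨hη.2, (h.seq α η hη.1).2⟩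
    nonempty := ⟨0, res 0 x₀, h.down α₀ x₀ 0 hx₀ zero_le, h4.1⟩
    down := fun α η β hη hβ => ⟨h.down α η β hη.1 hβ, hβ.trans_lt hη.2⟩
    up := fun α η β hη hβ => by
      obtain ⟨y, hy, hr⟩ := h.up α η β hη.1 (hβ.trans h4.2)
      exact ⟨y, ⟨hy, max_lt hη.2 hβ⟩, hr⟩
    lim := fun δ η hδ hl hs hη => ⟨h.lim δ η (hδ.trans h4.2) hl hs (fun α hα => (hη α hα).1), hδ⟩
    split := fun α η hη => by
      have hs : Order.succ α < ν.ord := hlim.succ_lt hη.2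
      have h5 := h.split α η hη.1
      constructor
      · intro hh
        exact ⟨h5.1 ⟨hh.1.1, hh.2.1⟩, hη.2⟩
      · intro hh
        have h6 := h5.2 hh.1
        exact ⟨⟨h6.1, hs⟩, ⟨h6.2, hs⟩⟩ }

end HLR
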