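import Pool.Agent.H54.HR.R8a
import Pool.Agent.H54.HR.R6

/-!
ROW HR/R8. Let `Q` be the intersection of the set of `lim_eq`, the set of `h`, and `{μ | μ < κ.ord}`; for finitely many given ordinals `< κ.ord` take `μ ∈ Q` above all of them (`tail`, `Ultrafilter.nonempty_of_mem`) and transfer each field of `Suitable ν (T μ) (A μ)`, `ν.ord = μ` (`card`: `card_of` for `κ`; unboundedness of the limit from `unb_of` for `ν`; members of `T μ α` are sequences of length `α < μ` by `seq`, so a member of the limit at `α` is a sequence of length `α < κ.ord`; `α ∈ A μ` implies `α < μ`; for `lim` use `μ > δ`, the restrictions `res α η` are sequences of length `α` by `isSeq_res`; for `split` use `μ > Order.succ α`, `isSeq_update`).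
-/

set_option autoImplicit false

namespace HLR

open Cardinal Ordinal HLP

theorem lim_suit {κ : Cardinal.{0}} (hκ : κ.IsInaccessible) {U : Ultrafilter Ordinal.{0}} (hU : NormalUF κ U)
    {T : Ordinal.{0} → Ordinal.{0} → Set Sq} {A : Ordinal.{0} → Set Ordinal.{0}}
    (h : {μ : Ordinal.{0} | ∃ ν : Cardinal.{0}, ν.ord = μ ∧ ν.IsInaccessible ∧ Suitable ν (T μ) (A μ)} ∈ U) :
    Suitable κ (fun α => {x | {μ | x ∈ T μ α} ∈ U}) {α | {μ | α ∈ A μ} ∈ U} := by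
  have hκ0 : 0 < κ.ord := by
    have h1 : (0 : Cardinal.{0}).ord < κ.ord := Cardinal.ord_lt_ord.2 (Cardinal.aleph0_pos.trans hκ.aleph0_lt)
    rwa [Cardinal.ord_zero] at h1
  have hsucc : ∀ α < κ.ord, Order.succ α < κ.ord := fun α hα =>
    (Cardinal.isSuccLimit_ord hκ.aleph0_lt.le).succ_lt hα
  have pick : ∀ γ < κ.ord, ∃ ν : Cardinal.{0}, γ < ν.ord ∧ ν.IsInaccessible ∧ Suitable ν (T ν.ord) (A ν.ord) ∧
      (∀ α < ν.ord, ∀ x, IsSeq α x → (x ∈ T ν.ord α ↔ {μ' | x ∈ T μ' α} ∈ U)) ∧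
      (∀ α < ν.ord, (α ∈ A ν.ord ↔ {μ' | α ∈ A μ'} ∈ U)) := by
    intro γ hγ
    obtain ⟨μ, ⟨⟨h1, h1'⟩, ν, rfl, h2, h3⟩, h4⟩ := U.nonempty_of_mem
      (Filter.inter_mem (Filter.inter_mem (lim_eq hκ hU T A) h) (hU.tail γ hγ))
    exact ⟨ν, h4.1, h2, h3, h1, h1'⟩
  have hseq : ∀ α x, {μ | x ∈ T μ α} ∈ U → α < κ.ord ∧ IsSeq α x := by
    intro α x hx
    obtain ⟨μ, ⟨h1, ν, rfl, h2, h3⟩, h4⟩ := U.nonempty_of_mem
      (Filter.inter_mem (Filter.inter_mem hx h) (hU.tail 0 hκ0))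
    exact ⟨(h3.seq α x h1).1.trans h4.2, (h3.seq α x h1).2⟩
  have hA : ∀ α, {μ | α ∈ A μ} ∈ U → α < κ.ord := by
    intro α hα
    obtain ⟨μ, ⟨h1, ν, rfl, h2, h3⟩, h4⟩ := U.nonempty_of_mem
      (Filter.inter_mem (Filter.inter_mem hα h) (hU.tail 0 hκ0))
    exact (h3.sub α h1).trans h4.2
  constructor
  · exact hA
  · refine card_of hκ hA ?_
    intro γ hγ
    obtain ⟨ν, h1, h2, h3, h4, h5⟩ := pick γ hγ
    obtain ⟨α, hα, hγα⟩ := unb_of h2 h3.sub h3.card γ h1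
    exact ⟨α, (h5 α (h3.sub α hα)).1 hα, hγα⟩
  · exact hseq
  · obtain ⟨ν, h1, h2, h3, h4, h5⟩ := pick 0 hκ0
    obtain ⟨α, x, hx⟩ := h3.nonempty
    exact ⟨α, x, (h4 α (h3.seq α x hx).1 x (h3.seq α x hx).2).1 hx⟩
  · intro α η β hη hβ
    show {μ | res β η ∈ T μ β} ∈ U
    filter_upwards [hη, h] with μ h1 h2
    obtain ⟨ν, -, -, h3⟩ := h2
    exact h3.down α η β h1 hβ
  · intro α η β hη hβ
    obtain ⟨hα, hs⟩ := hseq α η hη
    obtain ⟨ν, h1, h2, h3, h4, h5⟩ := pick (max α β) (max_lt hα hβ)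
    obtain ⟨ξ, hξ, hξ'⟩ := h3.up α η β ((h4 α ((le_max_left _ _).trans_lt h1) η hs).2 hη)
      ((le_max_right _ _).trans_lt h1)
    exact ⟨ξ, (h4 _ h1 ξ (h3.seq _ ξ hξ).2).1 hξ, hξ'⟩
  · intro δ η hδ hlim hs hr
    obtain ⟨ν, h1, h2, h3, h4, h5⟩ := pick δ hδ
    exact (h4 δ h1 η hs).1 (h3.lim δ η h1 hlim hs fun α hα =>
      (h4 α (hα.trans h1) (res α η) (isSeq_res α η)).2 (hr α hα))
  · intro α η hη
    obtain ⟨hα, hs⟩ := hseq α η hη
    obtain ⟨ν, h1, h2, h3, h4, h5⟩ := pick (Order.succ α) (hsucc α hα)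
    have hαν : α < ν.ord := (Order.lt_succ α).trans h1
    have h6 := h3.split α η ((h4 α hαν η hs).2 hη)
    rw [h4 _ h1 _ (isSeq_update hs false), h4 _ h1 _ (isSeq_update hs true), h5 α hαν] at h6
    exact h6

end HLR
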