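import Pool.Agent.H54.HR.R4
import Pool.Agent.H54.HR.R7
import Pool.Agent.H54.HR.R8

/-!
# HR: from `κ` to almost all smaller cardinals
-/

set_option autoImplicit false

namespace HLR

open Cardinal Ordinal HLP

theorem down {κ : Cardinal.{0}} (hκ : κ.IsInaccessible) {U : Ultrafilter Ordinal.{0}} (hU : NormalUF κ U) {C : Type} (hC : #C < κ)
    (h : HLC κ C) : {μ : Ordinal.{0} | ∃ ν : Cardinal.{0}, ν.ord = μ ∧ ν.IsInaccessible ∧ HLC ν C} ∈ U := by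
  classical
  by_contra hcon
  have hneg : {μ : Ordinal.{0} | ∃ ν : Cardinal.{0}, ν.ord = μ ∧ ν.IsInaccessible ∧ HLC ν C}ᶜ ∈ U :=
    Ultrafilter.compl_mem_iff_notMem.2 hcon
  -- choose bad data
  have hch : ∀ μ : Ordinal.{0}, ∃ (lt : Ordinal.{0} → Sq → Sq → Prop) (c : Ordinal.{0} → Sq → Sq → Option C),
      (∃ ν : Cardinal.{0}, ν.ord = μ ∧ ν.IsInaccessible ∧ ¬ HLC ν C) →
      ∃ ν : Cardinal.{0}, ν.ord = μ ∧ ν.IsInaccessible ∧ WO ν lt ∧ Sym c ∧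
        ∃ c' : Ordinal.{0} → Sq → Sq → C, (∀ α x y, c α x y = some (c' α x y)) ∧ Sym c' ∧ ∀ T A, ¬ Gd ν lt c' T A := by
    intro μ
    by_cases hμ : ∃ ν : Cardinal.{0}, ν.ord = μ ∧ ν.IsInaccessible ∧ ¬ HLC ν C
    · obtain ⟨ν, h1, h2, h3⟩ := hμ
      unfold HLC HLw at h3
      push Not at h3
      obtain ⟨lt, hlt, c, hc, hT⟩ := h3
      refine ⟨lt, fun α x y => some (c α x y), fun _ => ⟨ν, h1, h2, hlt, fun α x y => ?_, c, fun _ _ _ => rfl, hc, ?_⟩⟩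
      · show some (c α x y) = some (c α y x)
        rw [hc α x y]
      · rintro T A ⟨hS, hG⟩
        obtain ⟨α, η₀, η₁, h4, h5, h6, h7⟩ := hT T A hS
        obtain ⟨i, hi⟩ := hG α η₀ η₁ h4 h5 h6
        obtain ⟨p, hp, hpi⟩ := h7 i
        exact hi p hp hpi
    · exact ⟨fun _ _ _ => False, fun _ _ _ => none, fun h => absurd h hμ⟩
  choose lt c hlc using hch
  have hbad : {μ : Ordinal.{0} | ∃ ν : Cardinal.{0}, ν.ord = μ ∧ ν.IsInaccessible ∧ ¬ HLC ν C} ∈ U := by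
    filter_upwards [hneg, inacc hκ hU] with μ h1 h2
    obtain ⟨ν, h3, h4⟩ := h2
    exact ⟨ν, h3, h4, fun h5 => h1 ⟨ν, h3, h4, h5⟩⟩
  have hOC : #(Option C) < κ := by
    rw [mk_option]
    exact add_lt_of_lt hκ.aleph0_lt.le hC (one_lt_aleph0.trans hκ.aleph0_lt)
  have hlim : ∀ (α : Ordinal.{0}) (x y : Sq), ∃ i : C, {μ | c μ α x y = some i} ∈ U := by
    intro α x y
    obtain ⟨o, ho⟩ := const_C hU hOC (fun μ => c μ α x y)
    obtain ⟨μ, h1, h2⟩ := U.nonempty_of_mem (Filter.inter_mem ho hbad)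
    obtain ⟨ν, _, _, _, _, c', hc', _⟩ := hlc μ h2
    have h3 : c μ α x y = o := h1
    rw [hc' α x y] at h3
    exact ⟨c' α x y, by rw [h3]; exact ho⟩
  choose cl hcl using hlim
  let ltl : Ordinal.{0} → Sq → Sq → Prop := fun α x y => {μ | lt μ α x y} ∈ U
  have hagr : {μ : Ordinal.{0} | ∀ α < μ, ∀ x y : Sq, IsSeq α x → IsSeq α y →
      ((lt μ α x y ↔ ltl α x y) ∧ c μ α x y = some (cl α x y))} ∈ U := by
    refine diag_seq hκ hU (fun α _ x y _ _ => ?_)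
    by_cases hl : ltl α x y
    · filter_upwards [hl, hcl α x y] with μ h1 h2
      exact ⟨⟨fun _ => hl, fun _ => h1⟩, h2⟩
    · have h1 : {μ | lt μ α x y}ᶜ ∈ U := Ultrafilter.compl_mem_iff_notMem.2 hl
      filter_upwards [h1, hcl α x y] with μ h2 h3
      exact ⟨⟨fun h4 => absurd h4 h2, fun h4 => absurd h4 hl⟩, h3⟩
  have hWO : WO κ ltl := by
    intro α hα
    obtain ⟨μ, ⟨h1, h2⟩, h3⟩ := U.nonempty_of_mem (Filter.inter_mem (Filter.inter_mem hagr hbad) (hU.tail α hα))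
    obtain ⟨ν, hν, _, hW, _⟩ := hlc μ h2
    have h4 := hW α (by rw [hν]; exact h3.1)
    have h5 : (fun x y : {η : Sq // IsSeq α η} => lt μ α x.1 y.1) = fun x y => ltl α x.1 y.1 := by
      funext x y
      exact propext (h1 α h3.1 x.1 y.1 x.2 y.2).1
    rw [← h5]
    exact h4
  have hSym : Sym cl := by
    intro α x y
    obtain ⟨μ, ⟨⟨h1, h2⟩, h3⟩⟩ := U.nonempty_of_mem (Filter.inter_mem (Filter.inter_mem (hcl α x y) (hcl α y x)) hbad)
    obtain ⟨ν, _, _, _, hs, _⟩ := hlc μ h3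
    have h4 : c μ α x y = some (cl α x y) := h1
    have h5 : c μ α y x = some (cl α y x) := h2
    have h6 := hs α x y
    rw [h4, h5] at h6
    exact Option.some.inj h6
  obtain ⟨T, A, hS, hG⟩ := h ltl hWO cl hSym
  obtain ⟨μ, ⟨h1, h2⟩, h3⟩ := U.nonempty_of_mem (Filter.inter_mem (Filter.inter_mem hagr hbad) (restr hκ hU hS))
  obtain ⟨ν, hν, hνi, _, _, c', hc', _, hno⟩ := hlc μ h2
  refine hno _ _ ⟨h3 ν hν hνi, ?_⟩
  intro α η₀ η₁ h4 h5 h6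
  obtain ⟨i, hi⟩ := hG α η₀ η₁ h4.1 h5.1 h6
  refine ⟨i, fun p hp => ?_⟩
  obtain ⟨q1, q2, q3, q4, q5, q6, q7⟩ := hp
  have hx := (hS.seq _ _ q3.1).2
  have hy := (hS.seq _ _ q4.1).2
  have h8 := h1 p.1 q2.2 p.2.1 p.2.2 hx hy
  have h9 : c' p.1 p.2.1 p.2.2 = cl p.1 p.2.1 p.2.2 := by
    have h10 := h8.2
    rw [hc'] at h10
    exact Option.some.inj h10
  rw [h9]
  exact hi p ⟨q1, q2.1, q3.1, q4.1, q5, q6, h8.1.1 q7⟩

end HLR
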