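import Pool.Agent.H54.HR.R0

/-!
ROW HR/R3. `const_lt`: `reg` for `g μ` (regressive on the set intersected with `tail δ`), the constant is `< δ` since the sets in `U` meet (see `complete` in `R0.lean`). `const_seq`: `K0b hκ hγ` gives `δ < κ.ord` and `e` with every sequence of length `γ` equal to some `e i`, `i < δ`; choose the index of `g μ`, apply `const_lt`. `const_C`: index the type `C` by ordinals below `δ = (#C).ord` (e.g. `Cardinal.ord_eq` / `Ordinal.enum` or a bijection with `Set.Iio` via `Cardinal.mk_Iio_ordinal` and `Cardinal.eq`/`Cardinal.lift`), apply `const_lt`; `C` is nonempty since `g 0 : C`.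
-/

set_option autoImplicit false

namespace HLR

open Cardinal Ordinal HLP

theorem const_lt {κ : Cardinal.{0}} {U : Ultrafilter Ordinal.{0}} (hU : NormalUF κ U) {δ : Ordinal.{0}} (hδ : δ < κ.ord)
    {g : Ordinal.{0} → Ordinal.{0}} (h : {μ | g μ < δ} ∈ U) : ∃ i < δ, {μ | g μ = i} ∈ U := by
  by_contra hcon
  push Not at hcon
  have h1 : ∀ i < δ, {μ | g μ = i}ᶜ ∈ U := fun i hi => Ultrafilter.compl_mem_iff_notMem.2 (hcon i hi)
  have h2 := complete hU hδ h1
  obtain ⟨μ, h3, h4⟩ := U.nonempty_of_mem (Filter.inter_mem h h2)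
  exact h4 (g μ) h3 rfl

theorem const_seq {κ : Cardinal.{0}} (hκ : κ.IsInaccessible) {U : Ultrafilter Ordinal.{0}} (hU : NormalUF κ U) {γ : Ordinal.{0}}
    (hγ : γ < κ.ord) {g : Ordinal.{0} → Sq} (h : {μ | IsSeq γ (g μ)} ∈ U) : ∃ t, IsSeq γ t ∧ {μ | g μ = t} ∈ U := by
  classical
  obtain ⟨δ, hδ, e, he⟩ := K0b hκ hγ
  have h1 : ∀ μ : Ordinal.{0}, ∃ i : Ordinal.{0}, IsSeq γ (g μ) → i < δ ∧ e i = g μ := by
    intro μ
    by_cases h2 : IsSeq γ (g μ)
    · obtain ⟨i, hi, h3⟩ := he _ h2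
      exact ⟨i, fun _ => ⟨hi, h3⟩⟩
    · exact ⟨0, fun h3 => absurd h3 h2⟩
  choose idx hidx using h1
  obtain ⟨i, hi, h2⟩ := const_lt hU hδ (g := idx) (by
    filter_upwards [h] with μ h3
    exact (hidx μ h3).1)
  have h3 : {μ | g μ = e i} ∈ U := by
    filter_upwards [h, h2] with μ h4 h5
    have h6 : idx μ = i := h5
    have h7 := (hidx μ h4).2
    rw [h6] at h7
    exact h7.symm
  obtain ⟨μ, h4, h5⟩ := U.nonempty_of_mem (Filter.inter_mem h h3)
  have h6 : g μ = e i := h5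
  refine ⟨e i, ?_, h3⟩
  rw [← h6]
  exact h4

theorem const_C {κ : Cardinal.{0}} {U : Ultrafilter Ordinal.{0}} (hU : NormalUF κ U) {C : Type} (hC : #C < κ)
    (g : Ordinal.{0} → C) : ∃ i : C, {μ | g μ = i} ∈ U := by
  obtain ⟨r, wo, hr⟩ := Cardinal.ord_eq C
  have hδ : (#C).ord < κ.ord := ord_lt_ord.2 hC
  obtain ⟨i, hi, h2⟩ := const_lt hU hδ (g := fun μ => Ordinal.typein r (g μ)) (by
    filter_upwards with μ
    rw [hr]
    exact Ordinal.typein_lt_type r (g μ))
  obtain ⟨μ₀, h3⟩ := U.nonempty_of_mem h2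
  refine ⟨g μ₀, ?_⟩
  filter_upwards [h2] with μ h4
  have h5 : Ordinal.typein r (g μ) = i := h4
  have h6 : Ordinal.typein r (g μ₀) = i := h3
  exact Ordinal.typein_injective r (h5.trans h6.symm)

end HLR
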