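import Pool.Agent.H54.HR.R3

/-!
ROW HR/R4b. Otherwise `μ.cof.ord < μ` for almost all `μ`; `reg` gives a constant `δ` with `μ.cof.ord = δ` for almost all `μ` (`δ < κ.ord`); for these `μ` there is (choose) a cofinal function `f μ : Ordinal → Ordinal` on `δ`: `∀ i < δ, f μ i < μ`, `∀ γ < μ, ∃ i < δ, γ ≤ f μ i` (`Ordinal.exists_fundamentalSequence`, `Ordinal.cof_eq` or `Order.cof`; a cofinal subset of `Set.Iio μ` of size `μ.cof`, indexed by `δ = μ.cof.ord`). For `i < δ`: `f μ i` is regressive, so by `reg` it is a constant `h i` for almost all `μ`; by `complete` almost all `μ` satisfy `∀ i < δ, f μ i = h i`. Take two such `μ < μ'` (second one by `tail μ`): there is `i < δ` with `μ ≤ f μ' i = h i = f μ i < μ`. Contradiction.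
-/

set_option autoImplicit false

namespace HLR

open Cardinal Ordinal HLP

theorem R4b_f (μ δ : Ordinal.{0}) : ∃ f : Ordinal.{0} → Ordinal.{0}, μ.cof.ord = δ →
    (∀ i < δ, f i < μ) ∧ ∀ γ < μ, ∃ i < δ, γ ≤ f i := by
  classical
  by_cases h : μ.cof.ord = δ
  · obtain ⟨f, hf⟩ := Ordinal.exists_isFundamentalSeq h
    refine ⟨fun i => if hi : i < δ then (f ⟨i, hi⟩).1 else 0, fun _ => ⟨fun i hi => ?_, fun γ hγ => ?_⟩⟩
    · simp only [dif_pos hi]
      exact (f ⟨i, hi⟩).2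
    · obtain ⟨_, ⟨⟨i, hi⟩, rfl⟩, h2⟩ := hf.isCofinal_range ⟨γ, hγ⟩
      refine ⟨i, hi, ?_⟩
      simp only [dif_pos (show i < δ from hi)]
      exact h2
  · exact ⟨fun _ => 0, fun h' => absurd h' h⟩

theorem cofin {κ : Cardinal.{0}} (hκ : κ.IsInaccessible) {U : Ultrafilter Ordinal.{0}} (hU : NormalUF κ U) :
    {μ : Ordinal.{0} | μ ≤ μ.cof.ord} ∈ U := by
  classical
  have hκ0 : 0 < κ.ord := by
    have h1 : ω ≤ κ.ord := by
      rw [← Cardinal.ord_aleph0]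
      exact Cardinal.ord_le_ord.2 hκ.1.le
    exact Ordinal.omega0_pos.trans_le h1
  by_contra hcon
  have h1 : {μ : Ordinal.{0} | μ ≤ μ.cof.ord}ᶜ ∈ U := Ultrafilter.compl_mem_iff_notMem.2 hcon
  have h2 : {μ : Ordinal.{0} | μ.cof.ord < μ} ∈ U := by
    filter_upwards [h1] with μ h3
    exact not_le.1 h3
  obtain ⟨δ, hδ⟩ := hU.reg (fun μ => μ.cof.ord) h2
  have hδκ : δ < κ.ord := by
    obtain ⟨μ, ⟨h3, h4⟩, h5⟩ := U.nonempty_of_mem (Filter.inter_mem (Filter.inter_mem h2 hδ) (hU.tail 0 hκ0))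
    have h6 : μ.cof.ord = δ := h4
    have h7 : μ.cof.ord < μ := h3
    rw [← h6]
    exact h7.trans h5.2
  choose f hf using fun μ : Ordinal.{0} => R4b_f μ δ
  have h3 : ∀ i : Ordinal.{0}, ∃ γ : Ordinal.{0}, i < δ → {μ | f μ i = γ} ∈ U := by
    intro i
    by_cases hi : i < δ
    · obtain ⟨γ, hγ⟩ := hU.reg (fun μ => f μ i) (by
        filter_upwards [hδ] with μ h4
        exact (hf μ h4).1 i hi)
      exact ⟨γ, fun _ => hγ⟩
    · exact ⟨0, fun h => absurd h hi⟩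
  choose h hh using h3
  have h4 := complete hU hδκ (F := fun i => {μ | f μ i = h i}) (fun i hi => hh i hi)
  obtain ⟨μ, ⟨h5, h6⟩, h7⟩ := U.nonempty_of_mem (Filter.inter_mem (Filter.inter_mem h4 hδ) (hU.tail 0 hκ0))
  obtain ⟨ν, ⟨h8, h9⟩, h10⟩ := U.nonempty_of_mem (Filter.inter_mem (Filter.inter_mem h4 hδ) (hU.tail μ h7.2))
  obtain ⟨i, hi, h11⟩ := (hf ν h9).2 μ h10.1
  have h12 : f ν i = h i := h8 i hi
  have h13 : f μ i = h i := h5 i hi
  have h14 : f μ i < μ := (hf μ h6).1 i hi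
  rw [h13, ← h12] at h14
  exact absurd h11 (not_le.2 h14)

end HLR
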