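import Pool.Agent.H54.HR.R4a
import Pool.Agent.H54.HR.R4b

/-!
ROW HR/R4. Take `μ` in the sets of `strong`, `cofin` and above `ω` (`tail`, `ω < κ.ord`). `ν = μ.card`. `ν.ord = μ`: `≤` by `ord_card_le`; if `μ.card.ord < μ` then with `α = μ.card.ord` (`α.card = μ.card`) `(2 ^ μ.card).ord < μ`, but `μ.card < 2 ^ μ.card` (`cantor`), so `μ < (2 ^ μ.card).ord` by `lt_ord`. `ℵ₀ < ν`: `ω < μ = ν.ord`. `le_cof_ord`: from `cofin` (`ord_le_ord`). `isStrongPrelimit`: for `x < ν`, `x.ord < μ`, so `(2 ^ x).ord < μ = ν.ord`.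
-/

set_option autoImplicit false

namespace HLR

open Cardinal Ordinal HLP

theorem inacc {κ : Cardinal.{0}} (hκ : κ.IsInaccessible) {U : Ultrafilter Ordinal.{0}} (hU : NormalUF κ U) :
    {μ : Ordinal.{0} | ∃ ν : Cardinal.{0}, ν.ord = μ ∧ ν.IsInaccessible} ∈ U := by
  have hω : Ordinal.omega0 < κ.ord := by
    rw [← Cardinal.ord_aleph0]
    exact Cardinal.ord_lt_ord.2 hκ.aleph0_lt
  filter_upwards [strong hκ hU, cofin hκ hU, hU.tail _ hω] with μ h1 h2 h3
  have h4 : μ.card.ord = μ := by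
    refine le_antisymm (Cardinal.ord_card_le μ) ?_
    by_contra hcon
    have h5 : μ.card.ord < μ := not_le.1 hcon
    have h6 := h1 _ h5
    rw [Cardinal.card_ord] at h6
    have h7 : μ < ((2 : Cardinal.{0}) ^ μ.card).ord := Cardinal.lt_ord.2 (Cardinal.cantor _)
    exact absurd h6 (not_lt.2 h7.le)
  refine ⟨μ.card, h4, ?_, ?_, ?_⟩
  · have h5 : (ℵ₀ : Cardinal.{0}).ord < μ.card.ord := by
      rw [h4, Cardinal.ord_aleph0]
      exact h3.1
    exact Cardinal.ord_lt_ord.1 h5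
  · rw [h4]
    have h5 : μ.card.ord ≤ μ.cof.ord := by
      rw [h4]
      exact h2
    exact Cardinal.ord_le_ord.1 h5
  · intro x hx
    have h5 : x.ord < μ := by
      rw [← h4]
      exact Cardinal.ord_lt_ord.2 hx
    have h6 : ((2 : Cardinal.{0}) ^ x).ord < μ := by
      have h7 := h1 _ h5
      rwa [Cardinal.card_ord] at h7
    have h8 : ((2 : Cardinal.{0}) ^ x).ord < μ.card.ord := by
      rw [h4]
      exact h6
    exact Cardinal.ord_lt_ord.1 h8
end HLR
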