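import Pool.Agent.H54.HR.R3

/-!
ROW HR/R4a. `diag` with `F α = {μ | (2 ^ α.card).ord < μ}`, which is in `U` by `tail`, since `(2 ^ α.card).ord < κ.ord` for `α < κ.ord` (`κ` is a strong limit: `hκ.isStrongPrelimit`, `Cardinal.lt_ord`).
-/

set_option autoImplicit false

namespace HLR

open Cardinal Ordinal HLP

theorem strong {κ : Cardinal.{0}} (hκ : κ.IsInaccessible) {U : Ultrafilter Ordinal.{0}} (hU : NormalUF κ U) :
    {μ : Ordinal.{0} | ∀ α < μ, ((2 : Cardinal.{0}) ^ α.card).ord < μ} ∈ U := by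
  have h0 : 0 < κ.ord := by
    rw [← Cardinal.ord_zero]
    exact ord_lt_ord.2 (Cardinal.aleph0_pos.trans hκ.aleph0_lt)
  refine diag (F := fun α => {μ : Ordinal.{0} | ((2 : Cardinal.{0}) ^ α.card).ord < μ}) hU h0 ?_
  intro α hα
  have h1 : α.card < κ := lt_ord.1 hα
  have h2 : (2 : Cardinal.{0}) ^ α.card < κ := hκ.isStrongPrelimit h1
  filter_upwards [hU.tail _ (ord_lt_ord.2 h2)] with μ h3
  exact h3.1

end HLR
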