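import Pool.Agent.H54.HR.R3

/-!
ROW HR/R5. `diag` with `F α = {μ | ∀ x y, IsSeq α x → IsSeq α y → R μ α x y}`; `F α ∈ U` for `α < κ.ord`: otherwise for almost all `μ` there are sequences `x μ, y μ` of length `α` with `¬ R μ α (x μ) (y μ)`; `const_seq` twice: `x μ = x`, `y μ = y` for almost all `μ`, contradiction with `h`.
-/

set_option autoImplicit false

namespace HLR

open Cardinal Ordinal HLP

theorem diag_seq {κ : Cardinal.{0}} (hκ : κ.IsInaccessible) {U : Ultrafilter Ordinal.{0}} (hU : NormalUF κ U)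
    {R : Ordinal.{0} → Ordinal.{0} → Sq → Sq → Prop}
    (h : ∀ α < κ.ord, ∀ x y : Sq, IsSeq α x → IsSeq α y → {μ : Ordinal.{0} | R μ α x y} ∈ U) :
    {μ : Ordinal.{0} | ∀ α < μ, ∀ x y : Sq, IsSeq α x → IsSeq α y → R μ α x y} ∈ U := by
  classical
  have hpos : 0 < κ.ord := by
    have h1 : (0 : Cardinal.{0}) < κ := Cardinal.aleph0_pos.trans hκ.aleph0_lt
    rw [← Cardinal.ord_zero]
    exact Cardinal.ord_lt_ord.2 h1
  have hF : ∀ α < κ.ord, {μ : Ordinal.{0} | ∀ x y : Sq, IsSeq α x → IsSeq α y → R μ α x y} ∈ U := by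
    intro α hα
    by_contra hcon
    have h1 : {μ : Ordinal.{0} | ∀ x y : Sq, IsSeq α x → IsSeq α y → R μ α x y}ᶜ ∈ U :=
      Ultrafilter.compl_mem_iff_notMem.2 hcon
    obtain ⟨μ₀, hμ₀⟩ := U.nonempty_of_mem h1
    have hμ₁ : ¬ ∀ x y : Sq, IsSeq α x → IsSeq α y → R μ₀ α x y := hμ₀
    push Not at hμ₁
    obtain ⟨x₀, y₀, hx₀, hy₀, -⟩ := hμ₁
    have h2 : ∀ μ : Ordinal.{0}, ∃ x y : Sq, IsSeq α x ∧ IsSeq α y ∧
        (μ ∈ {μ : Ordinal.{0} | ∀ x y : Sq, IsSeq α x → IsSeq α y → R μ α x y}ᶜ → ¬ R μ α x y) := by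
      intro μ
      by_cases h3 : μ ∈ {μ : Ordinal.{0} | ∀ x y : Sq, IsSeq α x → IsSeq α y → R μ α x y}ᶜ
      · have h4 : ¬ ∀ x y : Sq, IsSeq α x → IsSeq α y → R μ α x y := h3
        push Not at h4
        obtain ⟨x, y, hx, hy, h5⟩ := h4
        exact ⟨x, y, hx, hy, fun _ => h5⟩
      · exact ⟨x₀, y₀, hx₀, hy₀, fun h4 => absurd h4 h3⟩
    choose gx gy hgx hgy hR using h2
    obtain ⟨x, hx, hxU⟩ := const_seq hκ hU hα (g := gx) (by
      have h3 : {μ | IsSeq α (gx μ)} = Set.univ := Set.eq_univ_of_forall hgx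
      rw [h3]; exact Filter.univ_mem)
    obtain ⟨y, hy, hyU⟩ := const_seq hκ hU hα (g := gy) (by
      have h3 : {μ | IsSeq α (gy μ)} = Set.univ := Set.eq_univ_of_forall hgy
      rw [h3]; exact Filter.univ_mem)
    obtain ⟨μ, ⟨⟨h3, h4⟩, h5⟩, h6⟩ := U.nonempty_of_mem
      (Filter.inter_mem (Filter.inter_mem (Filter.inter_mem h1 hxU) hyU) (h α hα x y hx hy))
    have h7 : gx μ = x := h4
    have h8 : gy μ = y := h5
    have h9 := hR μ h3
    rw [h7, h8] at h9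
    exact h9 h6
  have hd := diag hU hpos (F := fun α => {μ : Ordinal.{0} | ∀ x y : Sq, IsSeq α x → IsSeq α y → R μ α x y}) hF
  exact hd

end HLR
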