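import Pool.Agent.H54.HR.R5

/-!
ROW HR/R8a. `diag_seq` for `R μ α x y := (x ∈ T μ α ↔ {μ' | x ∈ T μ' α} ∈ U)` (`{μ | R μ α x y} ∈ U` for fixed `α, x` by the ultrafilter property: if `{μ' | x ∈ T μ' α} ∈ U` it is this set, otherwise the complement, `Ultrafilter.compl_mem_iff_notMem`), and `diag` for the same statement with `A`.
-/

set_option autoImplicit false

namespace HLR

open Cardinal Ordinal HLP

theorem lim_eq {κ : Cardinal.{0}} (hκ : κ.IsInaccessible) {U : Ultrafilter Ordinal.{0}} (hU : NormalUF κ U)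
    (T : Ordinal.{0} → Ordinal.{0} → Set Sq) (A : Ordinal.{0} → Set Ordinal.{0}) :
    {μ : Ordinal.{0} | (∀ α < μ, ∀ x, IsSeq α x → (x ∈ T μ α ↔ {μ' | x ∈ T μ' α} ∈ U)) ∧
      ∀ α < μ, (α ∈ A μ ↔ {μ' | α ∈ A μ'} ∈ U)} ∈ U := by
  classical
  have hκ0 : 0 < κ.ord := by
    rw [Cardinal.lt_ord, Ordinal.card_zero]
    exact Cardinal.aleph0_pos.trans hκ.1
  have h1 : {μ : Ordinal.{0} | ∀ α < μ, ∀ x y : Sq, IsSeq α x → IsSeq α y →
      (x ∈ T μ α ↔ {μ' | x ∈ T μ' α} ∈ U)} ∈ U := by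
    refine diag_seq hκ hU (R := fun μ α x _ => (x ∈ T μ α ↔ {μ' | x ∈ T μ' α} ∈ U)) ?_
    intro α _ x _ _ _
    by_cases hx : {μ' : Ordinal.{0} | x ∈ T μ' α} ∈ U
    · exact Filter.mem_of_superset hx fun μ h => iff_of_true h hx
    · exact Filter.mem_of_superset (Ultrafilter.compl_mem_iff_notMem.2 hx) fun μ h => iff_of_false h hx
  have h2 : {μ : Ordinal.{0} | ∀ α < μ, μ ∈ {μ : Ordinal.{0} | (α ∈ A μ ↔ {μ' | α ∈ A μ'} ∈ U)}} ∈ U := by
    refine diag hU hκ0 ?_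
    intro α _
    by_cases hx : {μ' : Ordinal.{0} | α ∈ A μ'} ∈ U
    · exact Filter.mem_of_superset hx fun μ h => iff_of_true h hx
    · exact Filter.mem_of_superset (Ultrafilter.compl_mem_iff_notMem.2 hx) fun μ h => iff_of_false h hx
  exact Filter.mem_of_superset (Filter.inter_mem h1 h2) fun μ h =>
    ⟨fun α hα x hx => h.1 α hα x x hx hx, fun α hα => h.2 α hα⟩

end HLR
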