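import Pool.Agent.H54.HR.R4
import Pool.Agent.H54.HR.R7
import Pool.Agent.H54.HR.R8

/-!
ROW HR/R9. Given `lt` with `WO κ lt` and `c` with `Sym c`. For `μ = ν.ord` in the set `h` with `μ < κ.ord`: `WO ν lt` (restriction), so `h` gives `T μ, A μ` with `Gd ν lt c (T μ) (A μ)` (choose). Limit `T∞ α = {x | {μ | x ∈ T μ α} ∈ U}`, `A∞`: suitable for `κ` by `lim_suit`. For `η₀ ≠ η₁` in `T∞ α`: for almost all `μ` both are in `T μ α`, so a colour `i μ` is omitted on `S (T μ) (A μ) lt α η₀ η₁`; `const_C`: `i μ = i` for almost all `μ`. A triple `p ∈ S T∞ A∞ lt α η₀ η₁` is in `S (T μ) (A μ) lt α η₀ η₁` for almost all `μ` (directly from the definition of the limits, intersection of finitely many sets in `U`), so `c p ≠ i`.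
-/

set_option autoImplicit false

namespace HLR

open Cardinal Ordinal HLP

theorem up {κ : Cardinal.{0}} (hκ : κ.IsInaccessible) {U : Ultrafilter Ordinal.{0}} (hU : NormalUF κ U) {C : Type} (hC : #C < κ)
    (h : {μ : Ordinal.{0} | ∃ ν : Cardinal.{0}, ν.ord = μ ∧ ν.IsInaccessible ∧ HLC ν C} ∈ U) : HLC κ C := by
  classical
  have hκ0 : 0 < κ.ord := by
    have h0 : ℵ₀ < κ := hκ.aleph0_lt
    have h0' : (0 : Cardinal.{0}) < κ := lt_of_le_of_lt zero_le h0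
    rw [← Cardinal.ord_zero]
    exact Cardinal.ord_lt_ord.2 h0'
  intro lt hlt c hc
  have h1 : ∀ μ : Ordinal.{0}, ∃ (T : Ordinal.{0} → Set Sq) (A : Set Ordinal.{0}),
      (μ < κ.ord ∧ ∃ ν : Cardinal.{0}, ν.ord = μ ∧ ν.IsInaccessible ∧ HLC ν C) →
      ∃ ν : Cardinal.{0}, ν.ord = μ ∧ ν.IsInaccessible ∧ Gd ν lt c T A := by
    intro μ
    by_cases hμ : μ < κ.ord ∧ ∃ ν : Cardinal.{0}, ν.ord = μ ∧ ν.IsInaccessible ∧ HLC ν C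
    · obtain ⟨hμκ, ν, hν, hνi, hH⟩ := hμ
      obtain ⟨T, A, hS, hG⟩ := hH lt (fun α hα => hlt α ((hν ▸ hα : α < μ).trans hμκ)) c hc
      exact ⟨T, A, fun _ => ⟨ν, hν, hνi, hS, hG⟩⟩
    · exact ⟨fun _ => ∅, ∅, fun h' => absurd h' hμ⟩
  choose T A hTA using h1
  have hQ : {μ | ∃ ν : Cardinal.{0}, ν.ord = μ ∧ ν.IsInaccessible ∧ Gd ν lt c (T μ) (A μ)} ∈ U := by
    filter_upwards [h, hU.tail 0 hκ0] with μ h2 h3
    exact hTA μ ⟨h3.2, h2⟩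
  refine ⟨fun α => {x | {μ | x ∈ T μ α} ∈ U}, {α | {μ | α ∈ A μ} ∈ U}, lim_suit hκ hU ?_, ?_⟩
  · filter_upwards [hQ] with μ h2
    obtain ⟨ν, e, hi, hg⟩ := h2
    exact ⟨ν, e, hi, hg.1⟩
  · intro α η₀ η₁ hη₀ hη₁ hne
    have hη₀' : {μ | η₀ ∈ T μ α} ∈ U := hη₀
    have hη₁' : {μ | η₁ ∈ T μ α} ∈ U := hη₁
    have h2 : ∀ μ : Ordinal.{0}, ∃ i : C,
        (∃ ν : Cardinal.{0}, ν.ord = μ ∧ ν.IsInaccessible ∧ Gd ν lt c (T μ) (A μ)) → η₀ ∈ T μ α → η₁ ∈ T μ α →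
        ∀ p ∈ S (T μ) (A μ) lt α η₀ η₁, c p.1 p.2.1 p.2.2 ≠ i := by
      intro μ
      by_cases hμ : (∃ ν : Cardinal.{0}, ν.ord = μ ∧ ν.IsInaccessible ∧ Gd ν lt c (T μ) (A μ)) ∧ η₀ ∈ T μ α ∧ η₁ ∈ T μ α
      · obtain ⟨⟨ν, -, -, hg⟩, h3, h4⟩ := hμ
        obtain ⟨i, hi⟩ := hg.2 α η₀ η₁ h3 h4 hne
        exact ⟨i, fun _ _ _ => hi⟩
      · exact ⟨c 0 (fun _ => false) (fun _ => false), fun h3 h4 h5 => absurd ⟨h3, h4, h5⟩ hμ⟩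
    choose i hi using h2
    obtain ⟨j, hj⟩ := const_C hU hC i
    refine ⟨j, ?_⟩
    rintro ⟨β, x, y⟩ ⟨hαβ, hβA, hx, hy, hrx, hry, hl⟩ hcj
    have hβA' : {μ | β ∈ A μ} ∈ U := hβA
    have hx' : {μ | x ∈ T μ β} ∈ U := hx
    have hy' : {μ | y ∈ T μ β} ∈ U := hy
    have hall : {μ : Ordinal.{0} | False} ∈ U := by
      filter_upwards [hQ, hη₀', hη₁', hj, hβA', hx', hy'] with μ k1 k2 k3 k4 k5 k6 k7
      have k8 := hi μ k1 k2 k3 (β, x, y) ⟨hαβ, k5, k6, k7, hrx, hry, hl⟩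
      exact k8 (hcj.trans k4.symm)
    obtain ⟨μ, hμ⟩ := U.nonempty_of_mem hall
    exact hμ

end HLR
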